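import Mathlib
import Pool.Agent.R301.EQ.Tile

set_option autoImplicit false

/-!
# Q1 is equivalent to `L((log x)^a) → 1` and `U((log x)^a) → 1`

The problem file records that a positive answer to Q1 implies that `L((log x)^a)` and `U((log x)^a)`
both tend to `1` as `a → ∞`.  Here the CONVERSE is proved, in a precise form: the extreme values of
`R(x, y)` over ALL `y` from `(log x)^b` to `x` are caught between the extreme values at the single
lengths `(log x)^a` with `a = b` and with any `a < b`.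
-/

open Filter
open scoped Topology ENNReal

namespace Pool.Agent.Results.MP_293bbf_nt.LogPowerScales

/-- the ratio `R(x, y)` of the problem -/
noncomputable def R (x y : ℝ) : ℝ :=
  ((Nat.primeCounting ⌊x + y⌋₊ : ℝ) - (Nat.primeCounting ⌊x⌋₊ : ℝ)) / (y / Real.log x)

/-- `U((log x)^a)`, in `[0, ∞]` -/
noncomputable def U (a : ℝ) : ℝ≥0∞ := limsup (fun x : ℝ => ENNReal.ofReal (R x (Real.log x ^ a))) atTop

/-- `L((log x)^a)`, in `[0, ∞]` -/
noncomputable def L (a : ℝ) : ℝ≥0∞ := liminf (fun x : ℝ => ENNReal.ofReal (R x (Real.log x ^ a))) atTop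

/-- the upper limit, as `x → ∞`, of the supremum of `R(x, y)` over `(log x)^b ≤ y ≤ x` -/
noncomputable def Usup (b : ℝ) : ℝ≥0∞ :=
  limsup (fun x : ℝ => ⨆ y ∈ Set.Icc (Real.log x ^ b) x, ENNReal.ofReal (R x y)) atTop

/-- the lower limit, as `x → ∞`, of the infimum of `R(x, y)` over `(log x)^b ≤ y ≤ x` -/
noncomputable def Linf (b : ℝ) : ℝ≥0∞ :=
  liminf (fun x : ℝ => ⨅ y ∈ Set.Icc (Real.log x ^ b) x, ENNReal.ofReal (R x y)) atTop

lemma lt_of_ofReal {p q : ℝ} (h : ENNReal.ofReal p < ENNReal.ofReal q) : p < q := by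
  by_contra hcon
  push Not at hcon
  exact absurd (ENNReal.ofReal_le_ofReal hcon) (not_le.2 h)

lemma up {a b : ℝ} (ha : 0 < a) (hab : a < b) : Usup b ≤ U a := by
  by_contra hcon
  push Not at hcon
  obtain ⟨r, hr0, hr1, hr2⟩ := ENNReal.lt_iff_exists_real_btwn.1 hcon
  obtain ⟨q, hq0, hq1, hq2⟩ := ENNReal.lt_iff_exists_real_btwn.1 hr2
  have hrq := lt_of_ofReal hq1
  have h1 := eventually_lt_of_limsup_lt hr1
  have h2 := Pool.Agent.R301.EQ.up ha hab hr0 hrq (h1.mono fun x hx => (lt_of_ofReal hx).le)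
  have h3 : Usup b ≤ ENNReal.ofReal q := by
    refine limsup_le_of_le (by isBoundedDefault) ?_
    filter_upwards [h2] with x hx
    exact iSup₂_le fun y hy => ENNReal.ofReal_le_ofReal (hx y hy.1 hy.2)
  exact absurd h3 (not_le.2 hq2)

lemma low {a b : ℝ} (ha : 0 < a) (hab : a < b) : L a ≤ Linf b := by
  by_contra hcon
  push Not at hcon
  obtain ⟨q, hq0, hq1, hq2⟩ := ENNReal.lt_iff_exists_real_btwn.1 hcon
  obtain ⟨r, hr0, hr1, hr2⟩ := ENNReal.lt_iff_exists_real_btwn.1 hq2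
  have hqr := lt_of_ofReal hr1
  have h1 := eventually_lt_of_lt_liminf hr2
  have h2 := Pool.Agent.R301.EQ.low ha hab hq0 hqr (h1.mono fun x hx => (lt_of_ofReal hx).le)
  have h3 : ENNReal.ofReal q ≤ Linf b := by
    refine le_liminf_of_le (by isBoundedDefault) ?_
    filter_upwards [h2] with x hx
    exact le_iInf₂ fun y hy => ENNReal.ofReal_le_ofReal (hx y hy.1 hy.2)
  exact absurd h3 (not_le.2 hq1)

lemma up' (b : ℝ) : U b ≤ Usup b := by
  refine limsup_le_limsup ?_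
  filter_upwards [Pool.Agent.R301.EQ.log_pow_le b] with x hx
  exact le_iSup₂_of_le (Real.log x ^ b) ⟨le_rfl, hx⟩ le_rfl

lemma low' (b : ℝ) : Linf b ≤ L b := by
  refine liminf_le_liminf ?_
  filter_upwards [Pool.Agent.R301.EQ.log_pow_le b] with x hx
  exact iInf₂_le_of_le (Real.log x ^ b) ⟨le_rfl, hx⟩ le_rfl

lemma forward (h : ∀ ε : ℝ, 0 < ε → ∃ N : ℝ, 1 < N ∧ ∀ x y : ℝ, N ≤ x → Real.log x ^ N ≤ y → y ≤ x →
    |R x y - 1| ≤ ε) : Tendsto L atTop (𝓝 1) ∧ Tendsto U atTop (𝓝 1) := by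
  have key : ∀ ε : ℝ, 0 < ε → ∃ s₀ : ℝ, ∀ s : ℝ, s₀ ≤ s → ∀ᶠ x : ℝ in atTop, |R x (Real.log x ^ s) - 1| ≤ ε := by
    intro ε hε
    obtain ⟨N, hN, h⟩ := h ε hε
    refine ⟨N, fun s hs => ?_⟩
    filter_upwards [Pool.Agent.R301.EQ.log_pow_le s, eventually_ge_atTop N,
      Real.tendsto_log_atTop.eventually_ge_atTop 1] with x h1 h2 h3
    exact h x _ h2 (Real.rpow_le_rpow_of_exponent_le h3 hs) h1
  have hlow : ∀ y : ℝ≥0∞, y < 1 → ∀ᶠ s : ℝ in atTop, y < L s := by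
    intro y hy
    obtain ⟨r, hr0, hr1, hr2⟩ := ENNReal.lt_iff_exists_real_btwn.1 hy
    rw [← ENNReal.ofReal_one] at hr2
    obtain ⟨s₀, hs₀⟩ := key (1 - r) (by linarith [lt_of_ofReal hr2])
    filter_upwards [eventually_ge_atTop s₀] with s hs
    refine lt_of_lt_of_le hr1 (le_liminf_of_le (by isBoundedDefault) ?_)
    filter_upwards [hs₀ s hs] with x hx
    apply ENNReal.ofReal_le_ofReal
    linarith [(abs_le.1 hx).1]
  have hup : ∀ y : ℝ≥0∞, 1 < y → ∀ᶠ s : ℝ in atTop, U s < y := by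
    intro y hy
    obtain ⟨r, hr0, hr1, hr2⟩ := ENNReal.lt_iff_exists_real_btwn.1 hy
    rw [← ENNReal.ofReal_one] at hr1
    obtain ⟨s₀, hs₀⟩ := key (r - 1) (by linarith [lt_of_ofReal hr1])
    filter_upwards [eventually_ge_atTop s₀] with s hs
    refine lt_of_le_of_lt (limsup_le_of_le (by isBoundedDefault) ?_) hr2
    filter_upwards [hs₀ s hs] with x hx
    apply ENNReal.ofReal_le_ofReal
    linarith [(abs_le.1 hx).2]
  have hle : ∀ s, L s ≤ U s := fun s => liminf_le_limsup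
  constructor
  · rw [tendsto_order]
    exact ⟨hlow, fun y hy => (hup y hy).mono fun s hs => (hle s).trans_lt hs⟩
  · rw [tendsto_order]
    exact ⟨fun y hy => (hlow y hy).mono fun s hs => hs.trans_le (hle s), hup⟩

lemma backward (hL : Tendsto L atTop (𝓝 1)) (hU : Tendsto U atTop (𝓝 1)) :
    ∀ ε : ℝ, 0 < ε → ∃ N : ℝ, 1 < N ∧ ∀ x y : ℝ, N ≤ x → Real.log x ^ N ≤ y → y ≤ x →
    |R x y - 1| ≤ ε := by
  intro ε₀ hε₀
  obtain ⟨ε, hε, hε1, hε2⟩ : ∃ ε : ℝ, 0 < ε ∧ ε ≤ ε₀ ∧ ε ≤ 1 :=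
    ⟨min ε₀ 1, lt_min hε₀ one_pos, min_le_left _ _, min_le_right _ _⟩
  have h1 : ∀ᶠ a : ℝ in atTop, ENNReal.ofReal (1 - ε / 2) < L a := by
    apply hL.eventually_const_lt
    rw [← ENNReal.ofReal_one]
    exact (ENNReal.ofReal_lt_ofReal_iff one_pos).2 (by linarith)
  have h2 : ∀ᶠ a : ℝ in atTop, U a < ENNReal.ofReal (1 + ε / 2) := by
    apply hU.eventually_lt_const
    rw [← ENNReal.ofReal_one]
    exact (ENNReal.ofReal_lt_ofReal_iff (by linarith)).2 (by linarith)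
  obtain ⟨a, ha1, ha2, ha0⟩ := (h1.and (h2.and (eventually_gt_atTop (0 : ℝ)))).exists
  have h3 := Pool.Agent.R301.EQ.low ha0 (show a < a + 1 by linarith) (show 0 ≤ 1 - ε by linarith)
    (show 1 - ε < 1 - ε / 2 by linarith)
    ((eventually_lt_of_lt_liminf ha1).mono fun x hx => (lt_of_ofReal hx).le)
  have h4 := Pool.Agent.R301.EQ.up ha0 (show a < a + 1 by linarith) (show 0 ≤ 1 + ε / 2 by linarith)
    (show 1 + ε / 2 < 1 + ε by linarith)
    ((eventually_lt_of_limsup_lt ha2).mono fun x hx => (lt_of_ofReal hx).le)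
  obtain ⟨x₀, hx₀⟩ := eventually_atTop.1 (h3.and (h4.and (Real.tendsto_log_atTop.eventually_ge_atTop 1)))
  refine ⟨max (max x₀ (a + 1)) 2, lt_of_lt_of_le (by norm_num) (le_max_right _ _), fun x y hx hy hyx => ?_⟩
  obtain ⟨g1, g2, g3⟩ := hx₀ x (((le_max_left _ _).trans (le_max_left _ _)).trans hx)
  have hy' : Real.log x ^ (a + 1) ≤ y :=
    (Real.rpow_le_rpow_of_exponent_le g3 ((le_max_right _ _).trans (le_max_left _ _))).trans hy
  have g4 : 1 - ε ≤ R x y := g1 y hy' hyx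
  have g5 : R x y ≤ 1 + ε := g2 y hy' hyx
  rw [abs_le]
  constructor <;> linarith

end Pool.Agent.Results.MP_293bbf_nt.LogPowerScales

open Pool.Agent.Results.MP_293bbf_nt.LogPowerScales

/-- (1) For all `0 < a < b`: the upper limit of the supremum of `R(x, y)` over `(log x)^b ≤ y ≤ x` lies
between `U((log x)^b)` and `U((log x)^a)`, and the lower limit of the infimum lies between
`L((log x)^a)` and `L((log x)^b)`.  In particular `U((log x)^a)` is nonincreasing and `L((log x)^a)` is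
nondecreasing in `a`.  (2) The statement of Q1 holds if and only if `L((log x)^a)` and
`U((log x)^a)` tend to `1` as `a → ∞`. -/
theorem Pool.Agent.Results.MP_293bbf_nt.LogPowerScales.result :
    (∀ a b : ℝ, 0 < a → a < b → (U b ≤ Usup b ∧ Usup b ≤ U a) ∧ (L a ≤ Linf b ∧ Linf b ≤ L b)) ∧
    ((∀ ε : ℝ, 0 < ε → ∃ N : ℝ, 1 < N ∧ ∀ x y : ℝ, N ≤ x → Real.log x ^ N ≤ y → y ≤ x →
      |((Nat.primeCounting ⌊x + y⌋₊ : ℝ) - (Nat.primeCounting ⌊x⌋₊ : ℝ)) / (y / Real.log x) - 1| ≤ ε) ↔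
      (Tendsto L atTop (𝓝 1) ∧ Tendsto U atTop (𝓝 1))) :=
  ⟨fun _ b ha hab => ⟨⟨up' b, up ha hab⟩, ⟨low ha hab, low' b⟩⟩,
    ⟨fun h => forward h, fun h => backward h.1 h.2⟩⟩
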