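import Mathlib
import Pool.Agent.R301.GM.Main

set_option autoImplicit false

/-!
# Sieved random models of the primes: uniform asymptotics in intervals longer than all log-powers

Cramér's random model of the primes does not explain Maier's theorem (`L((log x)^a) < 1 < U((log x)^a)`
for all `a > 1`); Granville's refinement of it does: one first removes the integers `n` with a prime
factor `≤ z(n)`, where `z(n)` is about `log n`, and then chooses each remaining integer `n` with
probability about `∏_{p ≤ z(n)} (1 - 1/p)⁻¹ / log n`.  The theorem below proves the analogue of Q1 in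
ALL models of this kind.  No independence is assumed: the integers are decided one after the other
and only the conditional probability given the past is prescribed, asymptotically and almost surely.
The level `z` is any nondecreasing function with `log z(n) ~ θ log log n` for some `θ > 0` (for
instance `log n`, but also `(log n)^5` or `(log n)^(1/2) log log n`).
-/

open MeasureTheory Filter
open scoped Topology

namespace Pool.Agent.Results.MP_293bbf_nt.SievedRandomModels

/-- the conditional probability that `n + 1` is chosen, given the information up to `n` -/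
noncomputable def density {Ω : Type} {mΩ : MeasurableSpace Ω} (μ : Measure Ω) (ℱ : Filtration ℕ mΩ)
    (A : ℕ → Set Ω) (n : ℕ) : Ω → ℝ := μ[(A (n + 1)).indicator (fun _ => (1 : ℝ)) | ℱ n]

/-- `n` survives the sieve of level `z n`: no prime factor of `n` is `≤ z n` -/
def Unsieved (z : ℕ → ℕ) (n : ℕ) : Prop := ∀ p, p.Prime → p ∣ n → z n < p

/-- the sieve density `∏_{p ≤ y} (1 - 1/p)` -/
noncomputable def mertens (y : ℕ) : ℝ := ∏ p ∈ (Finset.Icc 1 y).filter Nat.Prime, (1 - (p : ℝ)⁻¹)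

/-- the number of members of `S` in the interval `(x, x + y]`, divided by `y / log x` -/
noncomputable def R (S : Set ℕ) (x y : ℝ) : ℝ :=
  (Set.ncard {a : ℕ | a ∈ S ∧ x < a ∧ (a : ℝ) ≤ x + y} : ℝ) / (y / Real.log x)

lemma mertens_eq (y : ℕ) : (mertens y)⁻¹ = Pool.Agent.R528.RM.MM y := by
  unfold mertens Pool.Agent.R528.RM.MM
  rw [Finset.prod_inv_distrib]

end Pool.Agent.Results.MP_293bbf_nt.SievedRandomModels

open Pool.Agent.Results.MP_293bbf_nt.SievedRandomModels

/-- Let `θ > 0` and let `z` be nondecreasing with `log z(n) ~ θ log log n`.  Let `A n` be the event that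
`n` belongs to a random set adapted to a filtration `ℱ`, such that `A n` is empty if `n` has a prime
factor `≤ z n`, and such that almost surely the conditional probability of `A (n + 1)` given `ℱ n` is
`(1 + o(1)) ∏_{p ≤ z (n + 1)} (1 - 1/p)⁻¹ / log n` along the other `n + 1`.  Then: for every `ε > 0`
there is `K` such that almost surely, for all large real `x`, one has `|R x y - 1| ≤ ε` for all `y`
with `(log x)^K ≤ y ≤ x`; and almost surely the statement of Q1 holds for the random set. -/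
theorem Pool.Agent.Results.MP_293bbf_nt.SievedRandomModels.result
    {Ω : Type} [mΩ : MeasurableSpace Ω] (μ : Measure Ω) [IsProbabilityMeasure μ]
    (ℱ : Filtration ℕ mΩ) (A : ℕ → Set Ω) (hA : ∀ n, MeasurableSet[ℱ n] (A n))
    (z : ℕ → ℕ) (hmono : Monotone z) (θ : ℝ) (hθ : 0 < θ)
    (hz : Tendsto (fun n : ℕ => Real.log (z n) / Real.log (Real.log n)) atTop (𝓝 θ))
    (hcop : ∀ n, ¬ Unsieved z n → A n = ∅)
    (hd : ∀ᵐ ω ∂μ, Tendsto (fun n : ℕ => density μ ℱ A n ω * Real.log n * mertens (z (n + 1)))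
      (atTop ⊓ 𝓟 {n : ℕ | Unsieved z (n + 1)}) (𝓝 1)) :
    (∀ ε : ℝ, 0 < ε → ∃ K : ℕ, ∀ᵐ ω ∂μ, ∀ᶠ x : ℝ in atTop, ∀ y : ℝ, Real.log x ^ K ≤ y → y ≤ x →
      |R {k | ω ∈ A k} x y - 1| ≤ ε) ∧
    (∀ᵐ ω ∂μ, ∀ ε : ℝ, 0 < ε → ∃ N : ℝ, 1 < N ∧ ∀ x y : ℝ, N ≤ x → Real.log x ^ N ≤ y → y ≤ x →
      |R {k | ω ∈ A k} x y - 1| ≤ ε) := by
  have hd' : ∀ᵐ ω ∂μ, Tendsto (fun n : ℕ => Pool.Agent.R528.RM.dens μ ℱ A n ω * Real.log n /
      Pool.Agent.R528.RM.MM (z (n + 1)))
      (atTop ⊓ 𝓟 {n | Pool.Agent.R301.GM.Free (z (n + 1)) (n + 1)}) (𝓝 1) := by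
    filter_upwards [hd] with ω hω
    refine hω.congr fun n => ?_
    rw [← mertens_eq, div_inv_eq_mul]
    rfl
  have h1 : ∀ ε : ℝ, 0 < ε → ∃ K : ℕ, ∀ᵐ ω ∂μ, ∀ᶠ x : ℝ in atTop, ∀ y : ℝ, Real.log x ^ K ≤ y → y ≤ x →
      |R {k | ω ∈ A k} x y - 1| ≤ ε :=
    fun ε hε => Pool.Agent.R301.GM.real_law (μ := μ) hA hmono hθ hz hcop hd' hε
  refine ⟨h1, ?_⟩
  have h2 : ∀ m : ℕ, ∃ K : ℕ, ∀ᵐ ω ∂μ, ∀ᶠ x : ℝ in atTop, ∀ y : ℝ, Real.log x ^ K ≤ y → y ≤ x →
      |R {k | ω ∈ A k} x y - 1| ≤ 1 / ((m : ℝ) + 1) := fun m => h1 _ (by positivity)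
  choose K hK using h2
  filter_upwards [ae_all_iff.2 hK] with ω hω ε hε
  obtain ⟨m, hm⟩ := exists_nat_one_div_lt hε
  obtain ⟨x₀, hx₀⟩ := eventually_atTop.1 ((hω m).and (Real.tendsto_log_atTop.eventually_ge_atTop 1))
  refine ⟨max (max x₀ (K m)) 2, lt_of_lt_of_le (by norm_num) (le_max_right _ _), fun x y hx hy hyx => ?_⟩
  obtain ⟨h3, h4⟩ := hx₀ x (((le_max_left _ _).trans (le_max_left _ _)).trans hx)
  refine (h3 y ?_ hyx).trans hm.le
  refine le_trans ?_ hy
  rw [← Real.rpow_natCast]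
  exact Real.rpow_le_rpow_of_exponent_le h4 ((le_max_right _ _).trans (le_max_left _ _))
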