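import Pool.Agent.R516.GenJ
import Pool.Agent.R516.Core

/-!
# Blocks of scales on which the local densities of primes are constant

`R(x, y) = (π(x + y) - π(x)) / (y / log x)`. For all but boundedly many blocks `[T_i, T_(i+1)]` of an
arbitrary sequence of scales there is a local density `θ(x) ∈ [0, 18/5]`, of mean value `1`, such that
`R(x, y)` is within `ε` of `θ(x)` simultaneously for all `y` in the block, for all `x ≤ N` outside a
set of measure `ε N`. In particular there is always such a block `[(log N)^a, (log N)^(a+m)]` with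
`a + m ≤ A(ε, m)`.
-/

set_option autoImplicit false

open Filter Topology MeasureTheory

namespace Pool.Agent.Results.MP_293bbf_nt.StableBlocks

/-- `R(x, y) = (π(x + y) - π(x)) / (y / log x)` -/
noncomputable def R (x y : ℝ) : ℝ :=
  ((Nat.primeCounting ⌊x + y⌋₊ : ℝ) - Nat.primeCounting ⌊x⌋₊) / (y / Real.log x)

/-- On `[y₁, y₂]` and up to `N` there is a stable local density of the primes, up to `ε`: a function
`θ` with values in `[0, 18/5]` and mean value within `ε` of `1` with `|R(x,y) - θ(⌊x⌋)| ≤ ε` for all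
`y ∈ [y₁, y₂]`, for all `x ∈ [0, N]` outside a set of measure at most `ε N`. -/
def Stable (ε : ℝ) (N : ℕ) (y₁ y₂ : ℝ) : Prop :=
  ∃ θ : ℕ → ℝ, (∀ n, 0 ≤ θ n ∧ θ n ≤ 18 / 5) ∧
    (∀ x ≤ N, |∑ n ∈ Finset.range x, θ n - x| ≤ ε * N) ∧
    volume {x : ℝ | 0 ≤ x ∧ x ≤ N ∧ ¬ ∀ y : ℝ, y₁ ≤ y → y ≤ y₂ → |R x y - θ ⌊x⌋₊| ≤ ε} ≤
      ENNReal.ofReal (ε * N)

theorem result : ∀ ε : ℝ, 0 < ε →
    (∃ K : ℕ, ∀ᶠ N : ℕ in atTop, ∀ (r : ℕ) (T : ℕ → ℝ), Real.log N ^ 23 ≤ T 0 →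
      (∀ i < r, 2 * T i ≤ T (i + 1)) → T r ≤ N / Real.log N ^ 4 →
      ∃ B : Finset ℕ, B.card ≤ K ∧ ∀ i < r, i ∉ B → Stable ε N (T i) (T (i + 1))) ∧
    (∀ m : ℕ, 1 ≤ m → ∃ A : ℕ, ∀ᶠ N : ℕ in atTop, ∃ a : ℕ, 23 ≤ a ∧ a + m ≤ A ∧
      Stable ε N (Real.log N ^ a) (Real.log N ^ (a + m))) := by
  intro ε hε
  have hU := Pool.Agent.R516.winU Pool.Agent.R516.core
  exact ⟨Pool.Agent.R516.stabR hU ε hε, fun m hm => Pool.Agent.R516.blockR hU ε hε m hm⟩

end Pool.Agent.Results.MP_293bbf_nt.StableBlocks
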