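import Pool.Agent.R516.Core
import Pool.Agent.R516.TwoI

/-!
Both bounds for the primes in `(n, n + y]`, simultaneously for all `y` from a power of `log n` up to
`n`, for an explicit proportion of the integers `n` and with explicit constants.
-/

set_option autoImplicit false

namespace Pool.Agent.Results.MP_293bbf_nt.TwoSidedAllScales

open Filter Topology

open Classical in
/-- For `0 < μ < 1` and `δ > 0`, for all large `N` at least `((1 - μ) / (18 / 5 - μ) - δ) N` integers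
`n ≤ N` satisfy `μ ≤ R(n, y) ≤ 18 / 5 + δ` for all real `y` with `(log n) ^ 23 ≤ y ≤ n`, where
`R(n, y) = (π(n + y) - π(n)) / (y / log n)`. -/
theorem result : ∀ μ δ : ℝ, 0 < μ → μ < 1 → 0 < δ → ∀ᶠ N : ℕ in atTop,
    ((1 - μ) / (18 / 5 - μ) - δ) * N ≤
      (((Finset.Icc 1 N).filter (fun n : ℕ => ∀ y : ℝ, (Real.log n) ^ 23 ≤ y → y ≤ n →
        μ ≤ ((Nat.primeCounting ⌊(n : ℝ) + y⌋₊ : ℝ) - Nat.primeCounting n) / (y / Real.log n) ∧
        ((Nat.primeCounting ⌊(n : ℝ) + y⌋₊ : ℝ) - Nat.primeCounting n) / (y / Real.log n) ≤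
          18 / 5 + δ)).card : ℝ) := by
  intro μ δ hμ hμ1 hδ
  have h := Pool.Agent.R516.thmI (Pool.Agent.R516.winU Pool.Agent.R516.core) μ (δ / 2) hμ hμ1
    (by positivity)
  filter_upwards [h, eventually_ge_atTop ⌈2 / δ⌉₊] with N h1 h2
  have h3 : 1 ≤ δ / 2 * N := by
    have h4 : 2 / δ ≤ N := (Nat.le_ceil _).trans (by exact_mod_cast h2)
    rw [div_le_iff₀ hδ] at h4
    linarith
  have hsub : (Finset.Icc 1 N).filter (fun n : ℕ => ∀ H : ℝ, (Real.log n) ^ 23 ≤ H → H ≤ n →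
        μ * H / Real.log n ≤ (Pool.Agent.R516.pcn n ⌊n + H⌋₊ : ℝ) ∧
          (Pool.Agent.R516.pcn n ⌊n + H⌋₊ : ℝ) ≤ (18 / 5 + δ / 2) * H / Real.log n) ⊆
      (Finset.Icc 1 N).filter (fun n : ℕ => ∀ y : ℝ, (Real.log n) ^ 23 ≤ y → y ≤ n →
        μ ≤ ((Nat.primeCounting ⌊(n : ℝ) + y⌋₊ : ℝ) - Nat.primeCounting n) / (y / Real.log n) ∧
        ((Nat.primeCounting ⌊(n : ℝ) + y⌋₊ : ℝ) - Nat.primeCounting n) / (y / Real.log n) ≤
          18 / 5 + δ) ∪ {1} := by
    intro n hn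
    rw [Finset.mem_filter, Finset.mem_Icc] at hn
    rw [Finset.mem_union, Finset.mem_filter, Finset.mem_singleton, Finset.mem_Icc]
    by_cases hn1 : n = 1
    · exact Or.inr hn1
    · left
      refine ⟨hn.1, fun y hy1 hy2 => ?_⟩
      have hn2 : (1 : ℝ) < n := by exact_mod_cast (by omega : 1 < n)
      have hl : 0 < Real.log n := Real.log_pos hn2
      have hy0 : 0 < y := lt_of_lt_of_le (by positivity) hy1
      obtain ⟨g1, g2⟩ := hn.2 y hy1 hy2
      have hle : n ≤ ⌊(n : ℝ) + y⌋₊ := Nat.le_floor (by linarith)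
      have e : (Pool.Agent.R516.pcn n ⌊(n : ℝ) + y⌋₊ : ℝ) =
          (Nat.primeCounting ⌊(n : ℝ) + y⌋₊ : ℝ) - Nat.primeCounting n := by
        rw [Pool.Agent.R516.pcn_eq]
        exact Pool.Agent.H357R2.SI.pc_eq_sub hle
      rw [e] at g1 g2
      have hyl : 0 < y / Real.log n := by positivity
      constructor
      · rw [le_div_iff₀ hyl]
        calc μ * (y / Real.log n) = μ * y / Real.log n := by ring
          _ ≤ _ := g1
      · rw [div_le_iff₀ hyl]
        calc _ ≤ (18 / 5 + δ / 2) * y / Real.log n := g2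
          _ = (18 / 5 + δ / 2) * (y / Real.log n) := by ring
          _ ≤ (18 / 5 + δ) * (y / Real.log n) := by
              apply mul_le_mul_of_nonneg_right _ hyl.le
              linarith
  have h5 := (Finset.card_le_card hsub).trans (Finset.card_union_le _ _)
  rw [Finset.card_singleton] at h5
  have h6 : ((((Finset.Icc 1 N).filter (fun n : ℕ => ∀ H : ℝ, (Real.log n) ^ 23 ≤ H → H ≤ n →
        μ * H / Real.log n ≤ (Pool.Agent.R516.pcn n ⌊n + H⌋₊ : ℝ) ∧
          (Pool.Agent.R516.pcn n ⌊n + H⌋₊ : ℝ) ≤ (18 / 5 + δ / 2) * H / Real.log n)).card : ℕ) : ℝ) ≤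
      (((Finset.Icc 1 N).filter (fun n : ℕ => ∀ y : ℝ, (Real.log n) ^ 23 ≤ y → y ≤ n →
        μ ≤ ((Nat.primeCounting ⌊(n : ℝ) + y⌋₊ : ℝ) - Nat.primeCounting n) / (y / Real.log n) ∧
        ((Nat.primeCounting ⌊(n : ℝ) + y⌋₊ : ℝ) - Nat.primeCounting n) / (y / Real.log n) ≤
          18 / 5 + δ)).card : ℝ) + 1 := by exact_mod_cast h5
  have h7 : ((1 - μ) / (18 / 5 - μ) - δ) * N = ((1 - μ) / (18 / 5 - μ) - δ / 2) * N - δ / 2 * N := by
    ring
  linarith

end Pool.Agent.Results.MP_293bbf_nt.TwoSidedAllScales
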